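import Pool.Agent.Helper85.QT.St3

/-!
Project QT, MODULE UNB: unfolding of sums over cosets.
-/

set_option autoImplicit false

open MeasureTheory Set
open scoped ENNReal

namespace Pool.Agent.Helper53.QT

open Pool.Agent.Helper85.QT Pool.Agent.Helper86.QA

theorem unb_unique (l u₁ x : ℝ) (hl : 0 < l) :
    ∑' n : ℤ, (Ico u₁ (u₁ + l)).indicator (fun _ => (1 : ℝ≥0∞)) (x + n * l) = 1 := by
  obtain ⟨m, hm, hu⟩ := existsUnique_add_zsmul_mem_Ico hl x u₁
  rw [tsum_eq_single m]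
  · rw [indicator_of_mem]
    simpa [zsmul_eq_mul] using hm
  · intro n hn
    rw [indicator_of_notMem]
    intro hmem
    exact hn (hu n (by simpa [zsmul_eq_mul] using hmem))

theorem unb_tile (l u₁ : ℝ) (hl : 0 < l) (f : ℝ → ℝ≥0∞) (hf : Measurable f) :
    ∫⁻ u : ℝ, f u = ∑' n : ℤ, ∫⁻ u in Ico u₁ (u₁ + l), f (u + n * l) := by
  have h1 : ∀ n : ℤ, ∫⁻ u in Ico u₁ (u₁ + l), f (u + n * l) =
      ∫⁻ u : ℝ, (Ico u₁ (u₁ + l)).indicator (fun _ => (1 : ℝ≥0∞)) (u + (-n : ℤ) * l) * f u := by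
    intro n
    rw [← lintegral_indicator measurableSet_Ico,
      ← lintegral_add_right_eq_self (fun u => (Ico u₁ (u₁ + l)).indicator
        (fun _ => (1 : ℝ≥0∞)) (u + (-n : ℤ) * l) * f u) ((n : ℝ) * l)]
    refine lintegral_congr fun u => ?_
    have h2 : u + (n : ℝ) * l + ((-n : ℤ) : ℝ) * l = u := by
      push_cast
      ring
    rw [h2]
    by_cases hu : u ∈ Ico u₁ (u₁ + l)
    · rw [indicator_of_mem hu, indicator_of_mem hu, one_mul]
    · rw [indicator_of_notMem hu, indicator_of_notMem hu, zero_mul]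
  simp_rw [h1]
  rw [← lintegral_tsum]
  · refine lintegral_congr fun u => ?_
    rw [ENNReal.tsum_mul_right]
    have h3 : ∑' n : ℤ, (Ico u₁ (u₁ + l)).indicator (fun _ => (1 : ℝ≥0∞)) (u + (-n : ℤ) * l) =
        ∑' n : ℤ, (Ico u₁ (u₁ + l)).indicator (fun _ => (1 : ℝ≥0∞)) (u + n * l) :=
      (Equiv.neg ℤ).tsum_eq (fun n : ℤ => (Ico u₁ (u₁ + l)).indicator
        (fun _ => (1 : ℝ≥0∞)) (u + n * l))
    rw [h3, unb_unique l u₁ u hl, one_mul]
  · intro n
    refine Measurable.aemeasurable ?_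
    refine Measurable.mul ?_ hf
    exact (measurable_const.indicator measurableSet_Ico).comp
      (measurable_id.add_const _)

/-- MODULE UNB. -/
theorem hUNB : StUNB := by
  intro Γ _ α γ l u₁ cf Φ hl hc1 hc2 hm hΦ1 hΦ2
  classical
  -- the functions on the quotient
  have hout : ∀ g : Γ, ∃ n : ℤ, (g : Γ ⧸ Subgroup.zpowers α).out = g * α ^ n := by
    intro g
    obtain ⟨h, hh⟩ := QuotientGroup.mk_out_eq_mul (Subgroup.zpowers α) g
    obtain ⟨n, hn⟩ := Subgroup.mem_zpowers_iff.1 h.2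
    exact ⟨n, by rw [hh, hn]⟩
  have hc : ∀ g : Γ, cf (g : Γ ⧸ Subgroup.zpowers α).out = cf g := by
    intro g
    obtain ⟨n, hn⟩ := hout g
    rw [hn, hc2]
  have hP : ∀ g : Γ, Φ (g : Γ ⧸ Subgroup.zpowers α).out = Φ g := by
    intro g
    obtain ⟨n, hn⟩ := hout g
    rw [hn, hΦ2]
  have hcn : ∀ (n : ℤ) (g : Γ), cf (γ ^ n * g) = cf g - n * l := by
    intro n
    induction n using Int.induction_on with
    | zero => intro g; simp
    | succ n ih =>
      intro g
      rw [zpow_add_one, mul_assoc, ih, hc1]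
      push_cast
      ring
    | pred n ih =>
      intro g
      have h1 := ih (γ⁻¹ * g)
      have h2 := hc1 (γ⁻¹ * g)
      rw [mul_inv_cancel_left] at h2
      rw [zpow_sub_one, mul_assoc, h1]
      push_cast
      linarith
  have hPn : ∀ (n : ℤ) (g : Γ) (u : ℝ), Φ (γ ^ n * g) u = Φ g (u + n * l) := by
    intro n
    induction n using Int.induction_on with
    | zero => intro g u; simp
    | succ n ih =>
      intro g u
      rw [zpow_add_one, mul_assoc, ih, hΦ1]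
      congr 1
      push_cast
      ring
    | pred n ih =>
      intro g u
      have h1 := ih (γ⁻¹ * g) u
      have h2 := hΦ1 (γ⁻¹ * g) (u + (-(n : ℤ) - 1 : ℤ) * l)
      rw [mul_inv_cancel_left] at h2
      rw [zpow_sub_one, mul_assoc, h1, h2]
      congr 1
      push_cast
      ring
  have hcq : ∀ (n : ℤ) (q : Γ ⧸ Subgroup.zpowers α),
      cf (γ ^ n • q).out = cf q.out - n * l := by
    intro n q
    induction q using QuotientGroup.induction_on with
    | H g =>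
      rw [MulAction.Quotient.smul_coe, smul_eq_mul, hc, hc, hcn]
  have hPq : ∀ (n : ℤ) (q : Γ ⧸ Subgroup.zpowers α) (u : ℝ),
      Φ (γ ^ n • q).out u = Φ q.out (u + n * l) := by
    intro n q u
    induction q using QuotientGroup.induction_on with
    | H g =>
      rw [MulAction.Quotient.smul_coe, smul_eq_mul, hP, hP, hPn]
  set A : Γ ⧸ Subgroup.zpowers α → ℝ≥0∞ := fun q => ∫⁻ u in Ico u₁ (u₁ + l), Φ q.out u with hA
  have hint : ∀ q : Γ ⧸ Subgroup.zpowers α, ∫⁻ u : ℝ, Φ q.out u = ∑' n : ℤ, A (γ ^ n • q) := by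
    intro q
    rw [unb_tile l u₁ hl _ (hm _)]
    refine tsum_congr fun n => ?_
    rw [hA]
    refine lintegral_congr fun u => ?_
    exact (hPq n q u).symm
  have hind : ∀ q : Γ ⧸ Subgroup.zpowers α,
      (Ico u₁ (u₁ + l)).indicator (fun _ => ∫⁻ u : ℝ, Φ q.out u) (cf q.out) =
      ∑' n : ℤ, (Ico u₁ (u₁ + l)).indicator (fun _ => (1 : ℝ≥0∞)) (cf q.out) *
        A (γ ^ n • q) := by
    intro q
    rw [ENNReal.tsum_mul_left, ← hint q]
    by_cases hq : cf q.out ∈ Ico u₁ (u₁ + l)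
    · rw [indicator_of_mem hq, indicator_of_mem hq, one_mul]
    · rw [indicator_of_notMem hq, indicator_of_notMem hq, zero_mul]
  calc ∑' q : Γ ⧸ Subgroup.zpowers α,
        (Ico u₁ (u₁ + l)).indicator (fun _ => ∫⁻ u : ℝ, Φ q.out u) (cf q.out)
      = ∑' q : Γ ⧸ Subgroup.zpowers α, ∑' n : ℤ,
          (Ico u₁ (u₁ + l)).indicator (fun _ => (1 : ℝ≥0∞)) (cf q.out) * A (γ ^ n • q) :=
        tsum_congr hind
    _ = ∑' n : ℤ, ∑' q : Γ ⧸ Subgroup.zpowers α,
          (Ico u₁ (u₁ + l)).indicator (fun _ => (1 : ℝ≥0∞)) (cf q.out) * A (γ ^ n • q) :=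
        ENNReal.tsum_comm
    _ = ∑' n : ℤ, ∑' q : Γ ⧸ Subgroup.zpowers α,
          (Ico u₁ (u₁ + l)).indicator (fun _ => (1 : ℝ≥0∞)) (cf q.out + n * l) * A q := by
        refine tsum_congr fun n => ?_
        rw [← (MulAction.toPerm (γ ^ n)).tsum_eq (fun q : Γ ⧸ Subgroup.zpowers α =>
          (Ico u₁ (u₁ + l)).indicator (fun _ => (1 : ℝ≥0∞)) (cf q.out + n * l) * A q)]
        refine tsum_congr fun q => ?_
        rw [MulAction.toPerm_apply, hcq n q]
        congr 2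
        ring
    _ = ∑' q : Γ ⧸ Subgroup.zpowers α, ∑' n : ℤ,
          (Ico u₁ (u₁ + l)).indicator (fun _ => (1 : ℝ≥0∞)) (cf q.out + n * l) * A q :=
        ENNReal.tsum_comm
    _ = ∑' q : Γ ⧸ Subgroup.zpowers α, A q := by
        refine tsum_congr fun q => ?_
        rw [ENNReal.tsum_mul_right, unb_unique l u₁ _ hl, one_mul]

end Pool.Agent.Helper53.QT
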